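import Mathlib

set_option autoImplicit false

namespace Pool.Agent.Results.MP_8dcfbf_co.Counter

/-- regular type B sequences. -/
inductive Reg : List ℕ → Prop
  | one : Reg [1]
  | two : Reg [1, 1]
  | left (l b r : List ℕ) : Reg (l ++ b ++ r) → 2 ≤ (l ++ b ++ r).length → b ≠ [] →
      Reg (b.sum :: (l ++ b ++ r))
  | right (l b r : List ℕ) : Reg (l ++ b ++ r) → 2 ≤ (l ++ b ++ r).length → b ≠ [] →
      Reg (l ++ b ++ r ++ [b.sum])

def pre : ℕ → List ℕ → List ℕ
  | _, [] => []
  | s, x :: d => (s + x) :: pre (s + x) d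

def blocks : List ℕ → List ℕ
  | [] => []
  | x :: d => pre 0 (x :: d) ++ blocks d

theorem mem_pre (b r : List ℕ) (hb : b ≠ []) : ∀ s, s + b.sum ∈ pre s (b ++ r) := by
  induction b with
  | nil => exact absurd rfl hb
  | cons x b ih =>
    intro s
    rcases eq_or_ne b [] with rfl | h
    · simp [pre]
    · simpa [pre, add_assoc] using Or.inr (by simpa [add_assoc] using ih h (s + x))

theorem mem_blocks (l b r : List ℕ) (hb : b ≠ []) : b.sum ∈ blocks (l ++ b ++ r) := by
  induction l with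
  | nil =>
    obtain ⟨x, b, rfl⟩ := List.exists_cons_of_ne_nil hb
    exact List.mem_append_left _ (by simpa using mem_pre (x :: b) r hb 0)
  | cons x l ih => exact List.mem_append_right _ ih

def has (d : List ℕ) (x : ℕ) : Bool := d.any fun y => Nat.beq x y

def chk : ℕ → List ℕ → Bool
  | 0, d => !(has d 57 && has d 62)
  | 1, d => (!has d 57 && !has d 62) || (!(has d 57 && has d 62) &&
      !(has d 57 && has (blocks d) 62) && !(has d 62 && has (blocks d) 57))
  | f + 2, d => Nat.blt (d.sum * 2 ^ f) 57 ||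
      (blocks d).all fun s => chk (f + 1) (s :: d) && chk (f + 1) (d ++ [s])

theorem has_iff (d : List ℕ) (x : ℕ) : has d x = true ↔ x ∈ d := by simp [has]

theorem step (f : ℕ) (d d' : List ℕ) (s : ℕ) (h : chk (f + 1) d = true) (hs : s ∈ blocks d)
    (hle : s ≤ d.sum) (hd : d' = s :: d ∨ d' = d ++ [s]) : chk f d' = true := by
  have h1 : d'.sum = s + d.sum := by rcases hd with rfl | rfl <;> simp [add_comm]
  have h2 : ∀ x, x ∈ d' ↔ x = s ∨ x ∈ d := by rcases hd with rfl | rfl <;> simp [or_comm]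
  have hh : ∀ d x, has d x = decide (x ∈ d) := fun d x => by
    rw [Bool.eq_iff_iff, has_iff]; simp
  rcases f with _ | f
  · simp only [chk, hh, h2] at h ⊢
    grind
  rw [chk, Bool.or_eq_true, Nat.blt_eq] at h
  rcases h with h | h
  · rcases f with _ | f
    · have h3 : ∀ x ∈ d, x ≤ d.sum := fun x hx =>
        List.single_le_sum (fun _ _ => Nat.zero_le _) x hx
      have := h3 57
      have := h3 62
      simp only [chk, hh, h2] at h ⊢
      grind
    · rw [chk, Bool.or_eq_true, Nat.blt_eq]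
      left
      have := Nat.mul_le_mul_right (2 ^ f) hle
      rw [pow_succ, ← mul_assoc] at h
      rw [h1, add_mul]; omega
  · simp only [Bool.and_eq_true, List.all_eq_true] at h
    rcases hd with rfl | rfl
    · exact (h s hs).1
    · exact (h s hs).2

theorem inv (d : List ℕ) (h : Reg d) : ∀ f, 2 ≤ d.length → f + d.length = 9 → chk f d = true := by
  induction h with
  | one => simp
  | two => exact fun f _ hf => by rw [show f = 7 by simpa using hf]; decide +kernel
  | left l b r _ h2 hb ih =>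
    exact fun f _ hf => step f _ _ _ (ih (f + 1) h2 (by simp at hf ⊢; omega)) (mem_blocks l b r hb)
      (by simp; omega) (Or.inl rfl)
  | right l b r _ h2 hb ih =>
    exact fun f _ hf => step f _ _ _ (ih (f + 1) h2 (by simp at hf ⊢; omega)) (mem_blocks l b r hb)
      (by simp; omega) (Or.inr rfl)

theorem size (d : List ℕ) (h : Reg d) :
    2 * d.sum ≤ 2 ^ d.length ∧ ∀ x ∈ d, x ≤ 1 ∨ 4 * x ≤ 2 ^ d.length := by
  induction h with
  | one => simp
  | two => simp
  | left l b r _ _ _ ih =>
    have : b.sum ≤ (l ++ b ++ r).sum := by simp; omega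
    generalize l ++ b ++ r = d at *
    simp only [List.sum_cons, List.length_cons, pow_succ, List.mem_cons]
    exact ⟨by omega, by rintro x (rfl | hx); omega; have := ih.2 x hx; omega⟩
  | right l b r _ _ _ ih =>
    have : b.sum ≤ (l ++ b ++ r).sum := by simp; omega
    generalize l ++ b ++ r = d at *
    simp only [List.sum_append, List.length_append, List.length_singleton, pow_succ,
      List.mem_append, List.mem_singleton, List.sum_singleton]
    exact ⟨by omega, by rintro x (hx | rfl); have := ih.2 x hx; omega; omega⟩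

theorem long (d : List ℕ) (h : Reg d) (h2 : 62 ∈ d) : 8 ≤ d.length := by
  by_contra hl
  have := (size d h).2 62 h2
  have : 2 ^ d.length ≤ 2 ^ 7 := Nat.pow_le_pow_right (by norm_num) (by omega)
  omega

theorem result : ∃ k₁ k₂ n₁ n₂ : ℕ, 0 < k₁ ∧ k₁ ≤ k₂ ∧
    IsLeast {n | ∃ d, Reg d ∧ d.length = n ∧ k₂ ∈ d} n₁ ∧
    IsLeast {n | ∃ d, Reg d ∧ d.length = n ∧ ([k₁, k₂].Sublist d ∨ [k₂, k₁].Sublist d)} n₂ ∧
    n₁ + 1 < n₂ := by
  have r3 : Reg [1, 1, 2] := .right [] [1, 1] [] .two (by simp) (by simp)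
  have r4 : Reg [1, 1, 2, 4] := .right [] [1, 1, 2] [] r3 (by simp) (by simp)
  refine ⟨57, 62, 8, 10, by norm_num, by norm_num, ⟨⟨[1, 1, 2, 4, 8, 16, 32, 62], ?_, rfl,
    by simp⟩, ?_⟩, ⟨⟨[32, 16, 8, 1, 1, 2, 4, 57, 1, 62], ?_, rfl, Or.inl (by decide)⟩, ?_⟩,
    by norm_num⟩
  · exact .right [1, 1] [2, 4, 8, 16, 32] [] (.right [] [1, 1, 2, 4, 8, 16] []
      (.right [] [1, 1, 2, 4, 8] [] (.right [] [1, 1, 2, 4] [] r4 (by simp) (by simp))
      (by simp) (by simp)) (by simp) (by simp)) (by simp) (by simp)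
  · rintro _ ⟨d, h, rfl, h2⟩
    exact long d h h2
  · exact .right [32, 16, 8, 1, 1, 2] [4, 57, 1] [] (.right [32, 16, 8] [1] [1, 2, 4, 57]
      (.right [] [32, 16, 8, 1] [1, 2, 4] (.left [] [16, 8, 1, 1, 2, 4] []
      (.left [] [8, 1, 1, 2, 4] [] (.left [] [1, 1, 2, 4] [] r4 (by simp) (by simp))
      (by simp) (by simp)) (by simp) (by simp)) (by simp) (by simp)) (by simp) (by simp))
      (by simp) (by simp)
  · rintro _ ⟨d, h, rfl, h2⟩
    have h3 : 57 ∈ d ∧ 62 ∈ d := by
      rcases h2 with h2 | h2 <;> exact ⟨h2.subset (by simp), h2.subset (by simp)⟩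
    have h4 := long d h h3.2
    by_contra hl
    have h5 := inv d h (9 - d.length) (by omega) (by omega)
    have a := (has_iff d 57).mpr h3.1
    have b := (has_iff d 62).mpr h3.2
    rcases (by omega : 9 - d.length = 0 ∨ 9 - d.length = 1) with e | e <;>
      simp [e, chk, a, b] at h5

end Pool.Agent.Results.MP_8dcfbf_co.Counter
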